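import Pool.Agent.LE.StmtsZ

set_option autoImplicit false

open MeasureTheory ProbabilityTheory Function Filter

open scoped ENNReal BigOperators Topology NNReal

noncomputable section

namespace Pool.Agent.LE.H56Z

open Pool.Agent.LE

/-- `s² ≤ e^s + e^{-s} - 2` -/
theorem sq_le_cosh (s : ℝ) : s ^ 2 ≤ Real.exp s + Real.exp (-s) - 2 := by
  have h0 : ∀ x : ℝ, x ^ 2 ≤ Real.sinh x ^ 2 := by
    intro x
    rcases le_total 0 x with h | h
    · have := Real.self_le_sinh_iff.2 h
      nlinarith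
    · have h1 := Real.self_le_sinh_iff.2 (neg_nonneg.2 h)
      rw [Real.sinh_neg] at h1
      nlinarith
  have h1 := h0 (s / 2)
  have h2 : Real.cosh s = Real.cosh (2 * (s / 2)) := by ring_nf
  rw [Real.cosh_two_mul, Real.cosh_sq] at h2
  have h3 := Real.cosh_eq s
  nlinarith

theorem exp_ge (s : ℝ) : -|s| ≤ Real.exp s - 1 := by
  have h1 := Real.add_one_le_exp s
  have h2 := neg_abs_le s
  linarith

theorem ele1 (A B s : ℝ) (hA : 0 ≤ A) (hAB : A ≤ B) :
    1 / 2 * A ^ 2 * s ^ 2 - 3 * (A - B) ^ 2 ≤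
      A ^ 2 * (Real.exp s - 1) + B ^ 2 * (Real.exp (-s) - 1) := by
  have hr : 0 < Real.exp s := Real.exp_pos s
  have hi : 0 < Real.exp (-s) := Real.exp_pos (-s)
  have hri : Real.exp s * Real.exp (-s) = 1 := by rw [← Real.exp_add]; simp
  have hs := sq_le_cosh s
  set r := Real.exp s with hrdef
  set q := Real.exp (-s) with hqdef
  obtain ⟨δ, hδ⟩ : ∃ δ : ℝ, δ = B - A := ⟨_, rfl⟩
  have hδ0 : 0 ≤ δ := by linarith
  have hB : B = A + δ := by linarith
  subst hB
  have hK : (1 - q) ^ 2 ≤ r + q - 2 ∨ 1 ≤ q := by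
    by_cases h : q ≤ 1
    · left
      have h1 : (1 - q) ^ 2 = q ^ 2 - 2 * q + 1 := by ring
      have h2 : q * (r + q - 2) = (1 - q) ^ 2 := by
        have : q * (r + q - 2) = r * q + q ^ 2 - 2 * q := by ring
        rw [this, hri]
        ring
      have h3 : 0 ≤ r + q - 2 := by nlinarith [sq_nonneg s]
      nlinarith [mul_nonneg (sub_nonneg.2 h) h3]
    · right
      exact (not_le.1 h).le
  have hA2 : 0 ≤ A ^ 2 := sq_nonneg A
  have hmain : A ^ 2 * (r - 1) + (A + δ) ^ 2 * (q - 1) =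
      A ^ 2 * (r + q - 2) + (2 * A * δ + δ ^ 2) * (q - 1) := by ring
  rw [hmain]
  have hsA : A ^ 2 * s ^ 2 ≤ A ^ 2 * (r + q - 2) := mul_le_mul_of_nonneg_left hs hA2
  have hsA0 : 0 ≤ A ^ 2 * s ^ 2 := by positivity
  have hAδ : 0 ≤ A * δ := mul_nonneg hA hδ0
  rcases hK with h | h
  · have h1 : A ^ 2 * (1 - q) ^ 2 ≤ A ^ 2 * (r + q - 2) := mul_le_mul_of_nonneg_left h hA2
    have h2 : 0 ≤ (A * (1 - q) - 2 * δ) ^ 2 := sq_nonneg _
    have h3 : 0 ≤ δ ^ 2 * q := by positivity
    nlinarith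
  · have h1 : 0 ≤ (2 * A * δ + δ ^ 2) * (q - 1) := by
      apply mul_nonneg _ (by linarith)
      nlinarith [sq_nonneg δ]
    nlinarith [sq_nonneg δ]

theorem ele : EleStmt := by
  constructor
  · intro A B s hA hB
    rcases le_total A B with h | h
    · rw [min_eq_left h]
      exact ele1 A B s hA h
    · rw [min_eq_right h]
      have h1 := ele1 B A (-s) hB h
      rw [neg_neg] at h1
      nlinarith
  · intro A B s hA hB
    have hs := sq_le_cosh s
    have e1 := exp_ge s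
    have e2 := exp_ge (-s)
    rw [abs_neg] at e2
    rcases le_total A B with h | h
    · rw [min_eq_left h, abs_of_nonpos (by linarith)]
      nlinarith [mul_le_mul_of_nonneg_left hs hA, mul_le_mul_of_nonneg_left e2 (sub_nonneg.2 h)]
    · rw [min_eq_right h, abs_of_nonneg (by linarith)]
      nlinarith [mul_le_mul_of_nonneg_left hs hB, mul_le_mul_of_nonneg_left e1 (sub_nonneg.2 h)]

end Pool.Agent.LE.H56Z
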