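import Pool.Agent.LE.StmtsZ

set_option autoImplicit false

open MeasureTheory ProbabilityTheory Function Filter

open scoped ENNReal BigOperators Topology NNReal

noncomputable section

namespace Pool.Agent.LE.H56Z

open Pool.Agent.LE Pool.Agent.Anderson Pool.Agent.Loc

variable {d : ℕ}

theorem sd_single (x : Site d) (i : Fin d) : sd x (x + Pi.single i 1) ≤ 1 := by
  unfold sd
  apply Finset.sup_le
  intro j _
  by_cases h : j = i
  · subst h
    simp
  · simp [h]

/-- the cutoff -/
def phi (p : Site d) (s : ℕ) (x : Site d) : ℝ := max 0 (min 1 (2 - (sd p x : ℝ) / s))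

theorem phi_nonneg (p : Site d) (s : ℕ) (x : Site d) : 0 ≤ phi p s x := le_max_left _ _

theorem phi_le_one (p : Site d) (s : ℕ) (x : Site d) : phi p s x ≤ 1 :=
  max_le zero_le_one (min_le_left _ _)

theorem phi_one {p : Site d} {s : ℕ} (hs : 1 ≤ s) {x : Site d} (h : x ∈ box p s) :
    phi p s x = 1 := by
  rw [mem_box] at h
  have hs' : (0 : ℝ) < s := by exact_mod_cast hs
  have h1 : (sd p x : ℝ) / s ≤ 1 := by
    rw [div_le_one hs']
    exact_mod_cast h
  unfold phi
  rw [min_eq_left (by linarith), max_eq_right zero_le_one]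

theorem phi_zero {p : Site d} {s : ℕ} (hs : 1 ≤ s) {x : Site d} (h : 2 * s ≤ sd p x) :
    phi p s x = 0 := by
  have hs' : (0 : ℝ) < s := by exact_mod_cast hs
  have h1 : 2 ≤ (sd p x : ℝ) / s := by
    rw [le_div_iff₀ hs']
    exact_mod_cast h
  unfold phi
  exact max_eq_left ((min_le_right _ _).trans (by linarith))

theorem phi_lip {p : Site d} {s : ℕ} (hs : 1 ≤ s) (x : Site d) (i : Fin d) :
    |phi p s x - phi p s (x + Pi.single i 1)| ≤ 1 / s := by
  have hs' : (0 : ℝ) < s := by exact_mod_cast hs
  have h1 : (sd p x : ℝ) ≤ sd p (x + Pi.single i 1) + 1 := by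
    have := sd_triangle p (x + Pi.single i 1) x
    have h2 := sd_single x i
    rw [sd_comm] at h2
    have : sd p x ≤ sd p (x + Pi.single i 1) + 1 := by omega
    exact_mod_cast this
  have h2 : (sd p (x + Pi.single i 1) : ℝ) ≤ sd p x + 1 := by
    have := sd_triangle p x (x + Pi.single i 1)
    have h2 := sd_single x i
    have : sd p (x + Pi.single i 1) ≤ sd p x + 1 := by omega
    exact_mod_cast this
  unfold phi
  rw [max_comm 0, max_comm 0]
  refine (abs_max_sub_max_le_abs _ _ _).trans ?_
  refine (abs_min_sub_min_le_max _ _ _ _).trans ?_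
  apply max_le
  · simp
  · have e : (2 - (sd p x : ℝ) / s) - (2 - (sd p (x + Pi.single i 1) : ℝ) / s) =
        ((sd p (x + Pi.single i 1) : ℝ) - sd p x) / s := by ring
    rw [e, abs_div, abs_of_pos hs']
    apply div_le_div_of_nonneg_right _ hs'.le
    rw [abs_le]
    constructor <;> linarith

theorem shift_sum (G : Site d → ℝ) (p : Site d) (r : ℕ) (i : Fin d)
    (hG : ∀ x, x ∉ box p r → G x = 0) :
    ∑ x ∈ box p r, G x = ∑ x ∈ box p (r + 1), G (x + Pi.single i 1) := by
  have h1 : ∑ x ∈ box p (r + 1), G (x + Pi.single i 1) =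
      ∑ x ∈ (box p (r + 1)).filter (fun x => x + Pi.single i 1 ∈ box p r),
        G (x + Pi.single i 1) := by
    rw [Finset.sum_filter_of_ne]
    intro x _ hx
    by_contra hn
    exact hx (hG _ hn)
  rw [h1]
  refine Finset.sum_nbij' (fun x => x - Pi.single i 1) (fun x => x + Pi.single i 1) ?_ ?_ ?_ ?_ ?_
  · intro x hx
    rw [Finset.mem_filter]
    have hx' : x - Pi.single i 1 + Pi.single i 1 = x := sub_add_cancel _ _
    refine ⟨?_, ?_⟩
    · rw [mem_box] at hx ⊢
      have h2 := sd_single (x - Pi.single i 1) i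
      rw [hx', sd_comm] at h2
      have h3 := sd_triangle p x (x - Pi.single i 1)
      omega
    · rw [hx']
      exact hx
  · intro x hx
    exact (Finset.mem_filter.1 hx).2
  · intro x _
    exact sub_add_cancel _ _
  · intro x _
    exact add_sub_cancel_right _ _
  · intro x _
    beta_reduce
    rw [sub_add_cancel]

theorem lci (ele : EleStmt) : LciStmt := by
  intro d ω h ε k p s hd hε0 hε hk hs hLS
  obtain ⟨hω, hL⟩ := hLS
  have hs' : (0 : ℝ) < s := by exact_mod_cast hs
  set B := box p (2 * s) with hB
  set B' := box p (2 * s + 1) with hB'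
  have hBB' : B ⊆ B' := box_mono p (by omega)
  have hφ0 : ∀ x, x ∉ B → phi p s x = 0 := by
    intro x hx
    rw [hB, mem_box, not_le] at hx
    exact phi_zero hs hx.le
  -- bounds for `ω`
  have hω1 : ∀ x ∈ B', 9 / 10 ≤ ω x ∧ ω x ≤ 11 / 10 := by
    intro x hx
    have := abs_le.1 (hω x hx)
    constructor <;> linarith
  -- the sum
  let F : Fin d → Site d → ℝ := fun i x => phi p s x ^ 2 * (ω x * (ω (x + Pi.single i 1) *
    (Real.exp (h (x + Pi.single i 1) - h x) - 1)))
  let G : Fin d → Site d → ℝ := fun i x => phi p s x ^ 2 * (ω x * (ω (x - Pi.single i 1) *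
    (Real.exp (h (x - Pi.single i 1) - h x) - 1)))
  have hF0 : ∀ i x, x ∉ B → F i x = 0 := by
    intro i x hx
    simp only [F, hφ0 x hx]
    ring
  have hG0 : ∀ i x, x ∉ B → G i x = 0 := by
    intro i x hx
    simp only [G, hφ0 x hx]
    ring
  have hsum : ∑ x ∈ B, ∑ i, (F i x + G i x) ≤ k * B.card := by
    calc ∑ x ∈ B, ∑ i, (F i x + G i x) ≤ ∑ x ∈ B, k := by
          apply Finset.sum_le_sum
          intro x hx
          have h1 := hL x hx
          have h2 : ∑ i, (F i x + G i x) = phi p s x ^ 2 * (ω x * ∑ i : Fin d,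
              (ω (x + Pi.single i 1) * (Real.exp (h (x + Pi.single i 1) - h x) - 1) +
                ω (x - Pi.single i 1) * (Real.exp (h (x - Pi.single i 1) - h x) - 1))) := by
            rw [Finset.mul_sum, Finset.mul_sum]
            apply Finset.sum_congr rfl
            intro i _
            simp only [F, G]
            ring
          rw [h2]
          have h3 : phi p s x ^ 2 ≤ 1 := pow_le_one₀ (phi_nonneg p s x) (phi_le_one p s x)
          calc phi p s x ^ 2 * _ ≤ phi p s x ^ 2 * k :=
                mul_le_mul_of_nonneg_left h1 (sq_nonneg _)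
            _ ≤ 1 * k := mul_le_mul_of_nonneg_right h3 hk
            _ = k := one_mul k
      _ = k * B.card := by rw [Finset.sum_const, nsmul_eq_mul, mul_comm]
  have hsum2 : ∑ x ∈ B, ∑ i, (F i x + G i x) =
      ∑ x ∈ B', ∑ i, (F i x + G i (x + Pi.single i 1)) := by
    rw [Finset.sum_comm, Finset.sum_comm (s := B')]
    apply Finset.sum_congr rfl
    intro i _
    rw [Finset.sum_add_distrib, Finset.sum_add_distrib]
    congr 1
    · exact Finset.sum_subset hBB' (fun x _ hx => hF0 i x hx)
    · exact shift_sum (G i) p (2 * s) i (hG0 i)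
  -- the lower bound of an edge
  have hedge : ∀ x ∈ B', ∀ i : Fin d,
      81 / 200 * (if x ∈ box p s then
        (if x + Pi.single i 1 ∈ box p s then (h (x + Pi.single i 1) - h x) ^ 2 else 0) else 0) -
        363 / 100 * (if x ∈ B then 1 / (s : ℝ) ^ 2 else 0) ≤
      F i x + G i (x + Pi.single i 1) := by
    intro x hx i
    have hGx : G i (x + Pi.single i 1) = phi p s (x + Pi.single i 1) ^ 2 *
        (ω (x + Pi.single i 1) * (ω x * (Real.exp (-(h (x + Pi.single i 1) - h x)) - 1))) := by
      simp only [G]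
      rw [add_sub_cancel_right, neg_sub]
    rw [hGx]
    simp only [F]
    set a := h (x + Pi.single i 1) - h x with ha
    set u := phi p s x with hu
    set w := phi p s (x + Pi.single i 1) with hw
    by_cases hx2 : x + Pi.single i 1 ∈ B'
    · obtain ⟨o1, o2⟩ := hω1 x hx
      obtain ⟨o3, o4⟩ := hω1 _ hx2
      have hb := ele.1 u w a (phi_nonneg _ _ _) (phi_nonneg _ _ _)
      have ha1 : 81 / 100 ≤ ω x * ω (x + Pi.single i 1) := by nlinarith
      have ha2 : ω x * ω (x + Pi.single i 1) ≤ 121 / 100 := by nlinarith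
      have hmin : (if x ∈ box p s then (if x + Pi.single i 1 ∈ box p s then a ^ 2 else 0)
          else 0) ≤ (min u w) ^ 2 * a ^ 2 := by
        split_ifs with c1 c2
        · rw [hu, hw, phi_one hs c1, phi_one hs c2]
          simp
        · positivity
        · positivity
      have hdiff : (u - w) ^ 2 ≤ (if x ∈ B then 1 / (s : ℝ) ^ 2 else 0) := by
        split_ifs with c
        · have h1 := phi_lip (p := p) hs x i
          rw [← hu, ← hw] at h1
          have h2 : (u - w) ^ 2 ≤ (1 / (s : ℝ)) ^ 2 := sq_le_sq' (by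
            have := abs_le.1 h1
            linarith) (abs_le.1 h1).2
          rwa [one_div_pow] at h2
        · have h1 : u = 0 := hφ0 x c
          have h2 : w = 0 := by
            apply phi_zero hs
            rw [hB, mem_box, not_le] at c
            have h3 := sd_triangle p (x + Pi.single i 1) x
            have h4 := sd_single x i
            rw [sd_comm] at h4
            omega
          rw [h1, h2]
          simp
      set m2 := (if x ∈ box p s then (if x + Pi.single i 1 ∈ box p s then a ^ 2 else 0)
          else (0 : ℝ)) with hm2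
      set D := (if x ∈ B then 1 / (s : ℝ) ^ 2 else 0) with hD
      set M := (min u w) ^ 2 * a ^ 2 with hM
      have hM0 : 0 ≤ M := by positivity
      have hD0 : 0 ≤ (u - w) ^ 2 := sq_nonneg _
      set o := ω x * ω (x + Pi.single i 1) with ho
      have e : u ^ 2 * (ω x * (ω (x + Pi.single i 1) * (Real.exp a - 1))) +
          w ^ 2 * (ω (x + Pi.single i 1) * (ω x * (Real.exp (-a) - 1))) =
          o * (u ^ 2 * (Real.exp a - 1) + w ^ 2 * (Real.exp (-a) - 1)) := by
        rw [ho]
        ring
      rw [e]
      have h1 : o * (1 / 2 * M - 3 * (u - w) ^ 2) ≤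
          o * (u ^ 2 * (Real.exp a - 1) + w ^ 2 * (Real.exp (-a) - 1)) := by
        apply mul_le_mul_of_nonneg_left _ (by linarith)
        have : 1 / 2 * M = 1 / 2 * (min u w) ^ 2 * a ^ 2 := by rw [hM]; ring
        rw [this]
        exact hb
      nlinarith [mul_le_mul_of_nonneg_right ha1 hM0, mul_le_mul_of_nonneg_right ha2 hD0]
    · have h3 : 2 * s + 1 ≤ sd p x := by
        rw [hB', mem_box, not_le] at hx2
        have h3 := sd_triangle p x (x + Pi.single i 1)
        have h4 := sd_single x i
        omega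
      have h4 : x ∉ B := by
        rw [hB, mem_box]
        omega
      have h5 : x ∉ box p s := by
        rw [mem_box]
        omega
      have h6 : w = 0 := by
        apply phi_zero hs
        rw [hB', mem_box, not_le] at hx2
        omega
      have h7 : u = 0 := hφ0 x h4
      rw [if_neg h4, if_neg h5, h6, h7]
      simp
  -- sum up
  have h1 : ∑ x ∈ B', ∑ i : Fin d, (81 / 200 * (if x ∈ box p s then
        (if x + Pi.single i 1 ∈ box p s then (h (x + Pi.single i 1) - h x) ^ 2 else 0) else 0) -
        363 / 100 * (if x ∈ B then 1 / (s : ℝ) ^ 2 else 0)) ≤ k * B.card := by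
    refine le_trans ?_ hsum
    rw [hsum2]
    exact Finset.sum_le_sum fun x hx => Finset.sum_le_sum fun i _ => hedge x hx i
  have h2 : ∑ x ∈ B', ∑ i : Fin d, (81 / 200 * (if x ∈ box p s then
        (if x + Pi.single i 1 ∈ box p s then (h (x + Pi.single i 1) - h x) ^ 2 else 0) else 0) -
        363 / 100 * (if x ∈ B then 1 / (s : ℝ) ^ 2 else 0)) =
      81 / 200 * eg h p s - 363 / 100 * (d * (1 / (s : ℝ) ^ 2) * B.card) := by
    simp only [Finset.sum_sub_distrib, ← Finset.mul_sum]
    congr 2
    · unfold eg
      have hsub : box p s ⊆ B' := box_mono p (by omega)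
      rw [← Finset.sum_subset hsub]
      · apply Finset.sum_congr rfl
        intro x hx
        apply Finset.sum_congr rfl
        intro i _
        rw [if_pos hx]
      · intro x _ hx
        apply Finset.sum_eq_zero
        intro i _
        rw [if_neg hx]
    · rw [← Finset.sum_subset hBB']
      · rw [Finset.sum_congr rfl (g := fun _ => (d : ℝ) * (1 / (s : ℝ) ^ 2))]
        · rw [Finset.sum_const, nsmul_eq_mul, mul_comm]
        · intro x hx
          rw [if_pos hx, Finset.sum_const, Finset.card_univ, Fintype.card_fin, nsmul_eq_mul]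
      · intro x _ hx
        apply Finset.sum_eq_zero
        intro i _
        rw [if_neg hx]
  rw [h2] at h1
  have hcard : (B.card : ℝ) ≤ 2 ^ d * (2 * (s : ℝ) + 1) ^ d := by
    rw [hB, card_box, ← mul_pow]
    push_cast
    apply pow_le_pow_left₀ (by positivity)
    linarith
  have hd' : (1 : ℝ) ≤ d := by exact_mod_cast hd
  set q := 1 / (s : ℝ) ^ 2 with hq
  have hq0 : 0 ≤ q := by positivity
  set N := (2 : ℝ) ^ d * (2 * (s : ℝ) + 1) ^ d with hN
  have hB0 : (0 : ℝ) ≤ B.card := by positivity
  have hgoal : 10 * (d : ℝ) * 2 ^ d * (q + k) * (2 * (s : ℝ) + 1) ^ d =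
      10 * d * (q + k) * N := by
    rw [hN]
    ring
  rw [hgoal]
  have e1 : (d : ℝ) * q * B.card ≤ d * q * N := mul_le_mul_of_nonneg_left hcard (by positivity)
  have e2 : k * (B.card : ℝ) ≤ k * N := mul_le_mul_of_nonneg_left hcard hk
  have e3 : k * N ≤ d * (k * N) := by
    have : 0 ≤ k * N := mul_nonneg hk (by positivity)
    nlinarith
  have e4 : 0 ≤ (d : ℝ) * q * N := by positivity
  nlinarith

end Pool.Agent.LE.H56Z
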